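import Pool.Agent.N430.AD.Pos
import Pool.Agent.N430.CLT.Limit

set_option autoImplicit false

/-! The central limit theorem for the number of primes with a prescribed primitive root `D m²`. -/

namespace Pool.Agent.N430.AD

open Finset Filter Topology
open Pool.Agent.H730R2.AA (rho cnt)
open Pool.Agent.H771R4.SE (dSq Dat)
open Pool.Agent.N430.CLT (avg avgP avgP_const avgP_mono avgP_nonneg' avgP_sub' avgP_add avgP_mul_left)

/-- the indicator function of `D m²` being a primitive root modulo `p` -/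
noncomputable def fI (D : ℤ) (p m : ℕ) : ℝ := by
  classical
  exact if orderOf ((D * (m : ℤ) ^ 2 : ℤ) : ZMod p) = p - 1 then 1 else 0

lemma fI_range (D : ℤ) (p m : ℕ) : 0 ≤ fI D p m ∧ fI D p m ≤ 1 := by
  unfold fI
  split_ifs <;> norm_num

lemma fI_sq (D : ℤ) (p m : ℕ) : fI D p m ^ 2 = fI D p m := by
  unfold fI
  split_ifs <;> norm_num

lemma fI_per (D : ℤ) (p m : ℕ) : fI D p (m + p) = fI D p m := by
  unfold fI
  have : ((D * ((m + p : ℕ) : ℤ) ^ 2 : ℤ) : ZMod p) = ((D * (m : ℤ) ^ 2 : ℤ) : ZMod p) := by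
    push_cast
    simp
  rw [this]

/-- the local probability -/
noncomputable def qI (D : ℤ) (p : ℕ) : ℝ := avgP p (fI D p)

lemma qI_range (D : ℤ) {p : ℕ} (hp : p.Prime) : 0 ≤ qI D p ∧ qI D p ≤ 1 := by
  constructor
  · exact avgP_nonneg' _ fun m => (fI_range D p m).1
  · have := avgP_mono (N := p) (fI D p) (fun _ => 1) (fun m => (fI_range D p m).2)
    rwa [avgP_const hp.pos] at this

/-- the datum of the central limit theorem -/
noncomputable def dI (D : ℤ) : CLT.Dat where
  X := fun p m => fI D p m - qI D p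
  per := fun p _ m => by rw [fI_per]
  bd := fun p hp m => by
    have h1 := fI_range D p m
    have h2 := qI_range D hp
    rw [abs_le]
    constructor <;> linarith [h1.1, h1.2, h2.1, h2.2]
  mean := fun p hp => by
    rw [avgP_sub', avgP_const hp.pos]
    exact sub_self _

lemma dI_v (D : ℤ) {p : ℕ} (hp : p.Prime) : (dI D).v p = qI D p * (1 - qI D p) := by
  unfold CLT.Dat.v
  have e : (fun m => (dI D).X p m ^ 2) = fun m => (1 - 2 * qI D p) * fI D p m + qI D p ^ 2 := by
    funext m
    change (fI D p m - qI D p) ^ 2 = _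
    have := fI_sq D p m
    ring_nf
    rw [this]
    ring
  rw [e, avgP_add, avgP_mul_left, avgP_const hp.pos]
  change (1 - 2 * qI D p) * qI D p + qI D p ^ 2 = _
  ring

lemma dI_S (D : ℤ) (x m : ℕ) :
    (dI D).S x m = (cnt (D * (m : ℤ) ^ 2) x : ℝ) - ∑ p ∈ CLT.PP x, qI D p := by
  classical
  unfold CLT.Dat.S
  change ∑ p ∈ CLT.PP x, (fI D p m - qI D p) = _
  rw [Finset.sum_sub_distrib]
  congr 1
  unfold cnt fI CLT.PP
  rw [← Finset.sum_filter, Finset.filter_filter, Finset.sum_const, nsmul_eq_mul, mul_one]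

lemma sum_range_zmod (p : ℕ) [NeZero p] (F : ZMod p → ℂ) :
    ∑ m ∈ range p, F (m : ZMod p) = ∑ a : ZMod p, F a := by
  refine Finset.sum_nbij' (fun m => (m : ZMod p)) (fun a => a.val) ?_ ?_ ?_ ?_ ?_
  · intro a _; exact mem_univ _
  · intro a _; exact mem_range.2 (ZMod.val_lt a)
  · intro a ha
    rw [mem_range] at ha
    exact ZMod.val_cast_of_lt ha
  · intro a _; exact ZMod.natCast_zmod_val a
  · intro a _; rfl

lemma good_full {p : ℕ} (hp : p.Prime) : Pool.Agent.H386R2.Artin.Good (Icc 1 (p - 1)) 0 p := by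
  have : Fact p.Prime := ⟨hp⟩
  intro χ hχ
  have h1 : ∑ q ∈ Icc 1 (p - 1), χ (q : ZMod p) = ∑ m ∈ range p, χ (m : ZMod p) := by
    have hsub : Icc 1 (p - 1) ⊆ range p := by
      intro q hq
      rw [mem_Icc] at hq
      have := hp.two_le
      exact mem_range.2 (by omega)
    apply Finset.sum_subset hsub
    intro q hq hq2
    rw [mem_range] at hq
    rw [mem_Icc] at hq2
    have : q = 0 := by omega
    subst this
    rw [Nat.cast_zero]
    exact MulChar.map_zero χ
  rw [h1, sum_range_zmod p (fun a => χ a), MulChar.sum_eq_zero_of_ne_one hχ, norm_zero]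

/-- the local density -/
noncomputable def GI (D : ℤ) (p : ℕ) : ℝ :=
  if p ∈ Pool.Agent.H730R2.AA.PR D p then rho p * (1 - (jacobiSym D p : ℝ)) else 0

lemma GI_range (D : ℤ) {p : ℕ} (hp : p.Prime) : 0 ≤ GI D p ∧ GI D p ≤ 1 := by
  unfold GI
  split_ifs with h
  · unfold Pool.Agent.H730R2.AA.PR at h
    rw [mem_filter] at h
    have h1 := jac_range D p
    have h2 := Pool.Agent.H771R4.SE.rho_nn p
    have h3 := two_rho_le hp h.2.2.1
    constructor
    · exact mul_nonneg h2 h1.1
    · calc rho p * (1 - (jacobiSym D p : ℝ)) ≤ rho p * 2 := mul_le_mul_of_nonneg_left h1.2 h2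
        _ ≤ 1 := by linarith
  · norm_num

/-- the local probability up to `O(1/p)` -/
lemma qI_GI (D : ℤ) (hD : Squarefree D) (hD4 : D % 4 = 1) (hD1 : D ≠ 1) {p : ℕ} (hp : p.Prime)
    (hp0 : D.natAbs + 3 ≤ p) : |qI D p - GI D p| ≤ 2 / p := by
  classical
  have : Fact p.Prime := ⟨hp⟩
  have hp3 : 3 ≤ p := by omega
  have hpr : (0 : ℝ) < p := by exact_mod_cast hp.pos
  have hE : ∀ q ∈ Icc 1 (p - 1), (q : ZMod p) ≠ 0 := by
    intro q hq h
    rw [mem_Icc] at hq
    rw [ZMod.natCast_eq_zero_iff] at h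
    have := Nat.le_of_dvd (by omega) h
    omega
  have h := (dSq D hD hD4 hD1).loc p hp hp0 (Icc 1 (p - 1)) 0 p hp.two_le hE le_rfl (good_full hp)
  have hh : Pool.Agent.H386R2.Artin.hL p (p - 1) = 0 := by
    unfold Pool.Agent.H386R2.Artin.hL
    rw [filter_eq_empty_iff.2, sum_empty]
    intro l hl hcon
    have := Nat.le_of_mem_primeFactors hl
    omega
  have hcard : ((#(Icc 1 (p - 1)) : ℕ) : ℝ) = p - 1 := by
    rw [Nat.card_Icc, Nat.add_sub_cancel, Nat.cast_sub hp.one_le]
    norm_num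
  rw [hh, hcard] at h
  simp only [mul_zero, add_zero] at h
  -- the count
  have hcnt : ∑ m ∈ range p, fI D p m =
      ((#((Icc 1 (p - 1)).filter (fun q : ℕ => orderOf ((D : ZMod p) * ((q : ℕ) : ZMod p) ^ 2) =
        p - 1)) : ℕ) : ℝ) := by
    have h0 : fI D p 0 = 0 := by
      unfold fI
      rw [if_neg]
      intro hcon
      have h1 : ((D * ((0 : ℕ) : ℤ) ^ 2 : ℤ) : ZMod p) = 0 := by simp
      rw [h1, orderOf_zero] at hcon
      omega
    have hsub : Icc 1 (p - 1) ⊆ range p := by
      intro q hq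
      rw [mem_Icc] at hq
      exact mem_range.2 (by omega)
    rw [← Finset.sum_subset hsub (fun q hq hq2 => by
      rw [mem_range] at hq
      rw [mem_Icc] at hq2
      have : q = 0 := by omega
      rw [this, h0])]
    rw [Finset.card_filter]
    push_cast
    refine Finset.sum_congr rfl fun m _ => ?_
    unfold fI
    push_cast
    rfl
  have h2 : |(∑ m ∈ range p, fI D p m) - (p - 1) * GI D p| ≤ 1 := by
    rw [hcnt]
    refine le_trans (le_of_eq ?_) h
    congr!
  have h3 := GI_range D hp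
  have e : qI D p - GI D p = ((∑ m ∈ range p, fI D p m) - (p - 1) * GI D p - GI D p) / p := by
    unfold qI avgP
    field_simp
    ring
  rw [e, abs_div, abs_of_pos hpr]
  apply div_le_div_of_nonneg_right _ hpr.le
  rw [abs_le] at h2 ⊢
  constructor <;> linarith [h2.1, h2.2, h3.1, h3.2]

end Pool.Agent.N430.AD
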