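import Pool.Agent.N430.AD.Final
import Pool.Agent.N430.CLT.Slutsky

set_option autoImplicit false

/-! The central limit theorem for the number of primes with a prescribed primitive root `D m²`. -/

namespace Pool.Agent.N430.AD

open Finset Filter Topology
open Pool.Agent.H730R2.AA (rho cnt mainT)
open Pool.Agent.N430.CLT (Phi)

lemma V_top (D : ℤ) (hD : Squarefree D) (hD4 : D % 4 = 1) (hD1 : D ≠ 1) :
    Tendsto (fun x : ℕ => (dI D).V x) atTop atTop := by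
  have h1 := V_lim D hD hD4 hD1
  have h2 := vD_pos D hD hD4 hD1
  have h3 := h1.pos_mul_atTop h2 pc_top
  refine h3.congr' ?_
  filter_upwards [eventually_ge_atTop 2] with x hx
  have hπ : (Nat.primeCounting x : ℝ) ≠ 0 := by
    exact_mod_cast (Pool.Agent.H730R2.AA.pc_pos x hx).ne'
  field_simp

lemma sqrt_lim (D : ℤ) (hD : Squarefree D) (hD4 : D % 4 = 1) (hD1 : D ≠ 1) :
    Tendsto (fun x : ℕ => √(Nat.primeCounting x : ℝ) / √((dI D).V x)) atTop (𝓝 (1 / √(vD D))) := by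
  have h1 := V_lim D hD hD4 hD1
  have h2 := vD_pos D hD hD4 hD1
  have h3 := (Real.continuous_sqrt.tendsto _).comp h1
  have h4 := h3.inv₀ (Real.sqrt_pos.2 h2).ne'
  rw [one_div]
  refine h4.congr fun x => ?_
  change (√((dI D).V x / (Nat.primeCounting x : ℝ)))⁻¹ = _
  rw [Real.sqrt_div' _ (Nat.cast_nonneg _), inv_div]

theorem artin_clt (D : ℤ) (hD : Squarefree D) (hD4 : D % 4 = 1) (hD1 : D ≠ 1) (N : ℕ → ℕ)
    (hN : ∀ K : ℕ, ∀ᶠ x : ℕ in atTop, x ^ K ≤ N x) (t : ℝ) :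
    Tendsto (fun x : ℕ => (#{m ∈ Icc 1 (N x) | (cnt (D * ((m : ℕ) : ℤ) ^ 2) x : ℝ) ≤
      mainT D x + t * √(vD D * Nat.primeCounting x)} : ℝ) / N x) atTop (𝓝 (Phi t)) := by
  have hv := vD_pos D hD hD4 hD1
  have hVt := V_top D hD hD4 hD1
  have hs := sqrt_lim D hD hD4 hD1
  set a : ℕ → ℝ := fun x => (mainT D x - ∑ p ∈ CLT.PP x, qI D p +
    t * √(vD D * Nat.primeCounting x)) / √((dI D).V x) with ha
  have h1 : Tendsto (fun x : ℕ => (mainT D x - ∑ p ∈ CLT.PP x, qI D p) /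
      √(Nat.primeCounting x : ℝ)) atTop (𝓝 0) := by
    apply squeeze_zero_norm' _ (err_lim ((D.natAbs + 3 : ℕ) * (1 : ℕ)))
    filter_upwards [eventually_ge_atTop 1] with x hx
    rw [Real.norm_eq_abs, abs_div, abs_of_nonneg (Real.sqrt_nonneg _), abs_sub_comm]
    exact div_le_div_of_nonneg_right (center D hD hD4 hD1 x hx) (Real.sqrt_nonneg _)
  have h2 : Tendsto a atTop (𝓝 t) := by
    have h3 := (h1.add_const (t * √(vD D))).mul hs
    have e : (0 + t * √(vD D)) * (1 / √(vD D)) = t := by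
      have := (Real.sqrt_pos.2 hv).ne'
      field_simp
      ring
    rw [e] at h3
    refine h3.congr' ?_
    filter_upwards [eventually_ge_atTop 2] with x hx
    have hπ : (0 : ℝ) < (Nat.primeCounting x : ℝ) := by
      exact_mod_cast Pool.Agent.H730R2.AA.pc_pos x hx
    have hsq : √(Nat.primeCounting x : ℝ) ≠ 0 := (Real.sqrt_pos.2 hπ).ne'
    rw [ha]
    simp only
    rw [Real.sqrt_mul hv.le]
    field_simp
  have h3 := CLT.clt_threshold (dI D) N hN hVt t a h2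
  refine h3.congr' ?_
  filter_upwards [hVt.eventually_gt_atTop 0] with x hx
  have hσ : 0 < √((dI D).V x) := Real.sqrt_pos.2 hx
  have e : {m ∈ Icc 1 (N x) | (dI D).S x m / √((dI D).V x) ≤ a x} =
      {m ∈ Icc 1 (N x) | (cnt (D * ((m : ℕ) : ℤ) ^ 2) x : ℝ) ≤
        mainT D x + t * √(vD D * Nat.primeCounting x)} := by
    apply Finset.filter_congr
    intro m _
    rw [ha, dI_S, div_le_div_iff_of_pos_right hσ]
    constructor <;> intro h <;> linarith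
  rw [e]

/-- the constants -/
lemma cK_one {q : ℕ} (hq : q.Prime) : cK 1 q = 1 / ((q : ℝ) * ((q : ℝ) - 1)) := by
  have h2 : (2 : ℝ) ≤ q := by exact_mod_cast hq.two_le
  have h3 : (q : ℝ) - 1 ≠ 0 := by linarith
  have h4 : (q : ℝ) ≠ 0 := by linarith
  unfold cK
  field_simp
  ring

lemma cK_two' {q : ℕ} (hq : q.Prime) :
    cK 2 q = (2 * (q : ℝ) - 1) / ((q : ℝ) ^ 2 * ((q : ℝ) - 1)) := by
  have h2 : (2 : ℝ) ≤ q := by exact_mod_cast hq.two_le
  have h3 : (q : ℝ) - 1 ≠ 0 := by linarith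
  have h4 : (q : ℝ) ≠ 0 := by linarith
  unfold cK
  field_simp
  ring

lemma mu_prod (n : ℕ) (hn : Squarefree n) (g : ℕ → ℝ) :
    ∏ q ∈ n.primeFactors, (-(g q)) =
      ((ArithmeticFunction.moebius n : ℤ) : ℝ) * ∏ q ∈ n.primeFactors, g q := by
  rw [Pool.Agent.H730R2.AA.Euler.mu_eq_prod n hn, ← Finset.prod_mul_distrib]
  exact Finset.prod_congr rfl fun q _ => by ring

theorem densK_one (D : ℤ) (hD : Squarefree D) :
    densK 1 D = (1 - ((ArithmeticFunction.moebius D.natAbs : ℤ) : ℝ) *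
      ∏ q ∈ D.natAbs.primeFactors, (1 / ((q : ℝ) ^ 2 - (q : ℝ) - 1))) *
    ∏' p : Nat.Primes, (1 - 1 / (((p : ℕ) : ℝ) * (((p : ℕ) : ℝ) - 1))) := by
  unfold densK
  rw [← mu_prod _ (Int.squarefree_natAbs.2 hD)]
  congr 1
  · congr 1
    refine Finset.prod_congr rfl fun q hq => ?_
    have hqp := Nat.prime_of_mem_primeFactors hq
    have h2 : (2 : ℝ) ≤ q := by exact_mod_cast hqp.two_le
    have h3 : (q : ℝ) - 1 ≠ 0 := by linarith
    have h4 : (q : ℝ) ≠ 0 := by linarith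
    have h5 : (q : ℝ) ^ 2 - q - 1 ≠ 0 := by nlinarith
    rw [cK_one hqp]
    have e : 1 - 1 / ((q : ℝ) * ((q : ℝ) - 1)) = ((q : ℝ) ^ 2 - q - 1) / ((q : ℝ) * ((q : ℝ) - 1)) := by
      field_simp
    rw [e]
    field_simp
  · exact tprod_congr fun p => by rw [cK_one p.2]

theorem densK_two (D : ℤ) (hD : Squarefree D) :
    densK 2 D = (1 - ((ArithmeticFunction.moebius D.natAbs : ℤ) : ℝ) *
      ∏ q ∈ D.natAbs.primeFactors,
        ((2 * (q : ℝ) - 1) / ((q : ℝ) ^ 3 - (q : ℝ) ^ 2 - 2 * (q : ℝ) + 1))) *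
    ∏' p : Nat.Primes, (1 - (2 * ((p : ℕ) : ℝ) - 1) / (((p : ℕ) : ℝ) ^ 2 * (((p : ℕ) : ℝ) - 1))) := by
  unfold densK
  rw [← mu_prod _ (Int.squarefree_natAbs.2 hD)]
  congr 1
  · congr 1
    refine Finset.prod_congr rfl fun q hq => ?_
    have hqp := Nat.prime_of_mem_primeFactors hq
    have h2 : (2 : ℝ) ≤ q := by exact_mod_cast hqp.two_le
    have h3 : (q : ℝ) - 1 ≠ 0 := by linarith
    have h4 : (q : ℝ) ≠ 0 := by linarith
    have h5 : (q : ℝ) ^ 3 - (q : ℝ) ^ 2 - 2 * q + 1 ≠ 0 := by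
      have : (q : ℝ) ^ 3 - (q : ℝ) ^ 2 - 2 * q + 1 = (q : ℝ) * ((q : ℝ) * ((q : ℝ) - 1) - 2) + 1 := by
        ring
      rw [this]
      have h6 : 0 ≤ (q : ℝ) * ((q : ℝ) - 1) - 2 := by nlinarith
      have : 0 ≤ (q : ℝ) * ((q : ℝ) * ((q : ℝ) - 1) - 2) := by positivity
      linarith
    rw [cK_two' hqp]
    have e : 1 - (2 * (q : ℝ) - 1) / ((q : ℝ) ^ 2 * ((q : ℝ) - 1)) =
        ((q : ℝ) ^ 3 - (q : ℝ) ^ 2 - 2 * q + 1) / ((q : ℝ) ^ 2 * ((q : ℝ) - 1)) := by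
      field_simp
      ring
    rw [e]
    field_simp
  · exact tprod_congr fun p => by rw [cK_two' p.2]

end Pool.Agent.N430.AD
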