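import Mathlib

set_option autoImplicit false

/-! Euler products of absolutely convergent series supported on squarefree integers. -/

namespace Pool.Agent.N430.AD

open Finset

/-- data of the series -/
structure Mul (f : ℕ → ℝ) : Prop where
  one : f 1 = 1
  mul : ∀ {m n : ℕ}, Nat.Coprime m n → f (m * n) = f m * f n
  sqf : ∀ d, ¬ Squarefree d → f d = 0
  summ : Summable fun d => ‖f d‖

noncomputable def cop (f : ℕ → ℝ) (N d : ℕ) : ℝ := if Nat.Coprime N d then f d else 0

lemma Mul.zero {f : ℕ → ℝ} (hf : Mul f) : f 0 = 0 := hf.sqf 0 (by simp)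

lemma cop_mul {f : ℕ → ℝ} (hf : Mul f) (N : ℕ) : Mul (cop f N) where
  one := by unfold cop; rw [if_pos (Nat.coprime_one_right N), hf.one]
  mul := by
    intro m n h
    unfold cop
    by_cases h1 : Nat.Coprime N m
    · by_cases h2 : Nat.Coprime N n
      · rw [if_pos (Nat.coprime_mul_iff_right.mpr ⟨h1, h2⟩), if_pos h1, if_pos h2, hf.mul h]
      · rw [if_neg (fun h3 => h2 (Nat.coprime_mul_iff_right.mp h3).2), if_neg h2, mul_zero]
    · rw [if_neg (fun h3 => h1 (Nat.coprime_mul_iff_right.mp h3).1), if_neg h1, zero_mul]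
  sqf := by
    intro d hd
    unfold cop
    rw [hf.sqf d hd, ite_self]
  summ := by
    refine Summable.of_nonneg_of_le (fun _ => norm_nonneg _) (fun d => ?_) hf.summ
    unfold cop
    by_cases h : Nat.Coprime N d
    · rw [if_pos h]
    · rw [if_neg h, norm_zero]; exact norm_nonneg _

theorem euler {f : ℕ → ℝ} (hf : Mul f) :
    HasProd (fun p : Nat.Primes => 1 + f p) (∑' d, f d) := by
  have h := EulerProduct.eulerProduct_hasProd (f := f) hf.one (fun {m n} h => hf.mul h)
    hf.summ hf.zero
  have h2 : (fun p : Nat.Primes => ∑' e : ℕ, f ((p : ℕ) ^ e)) = fun p : Nat.Primes => 1 + f p := by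
    funext p
    have hp := p.2
    rw [tsum_eq_sum (s := {0, 1})]
    · rw [Finset.sum_pair (by norm_num), pow_zero, pow_one, hf.one]
    · intro k hk
      have hk2 : 2 ≤ k := by
        simp only [Finset.mem_insert, Finset.mem_singleton, not_or] at hk
        omega
      apply hf.sqf
      intro hs
      have h3 : (p : ℕ) * p ∣ (p : ℕ) ^ k := by
        rw [← pow_two]
        exact pow_dvd_pow _ hk2
      have := hs _ h3
      rw [Nat.isUnit_iff] at this
      exact hp.one_lt.ne' this
  rw [h2] at h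
  exact h

/-- splitting off the primes dividing `N` -/
theorem split {f : ℕ → ℝ} (hf : Mul f) (N : ℕ) (hN : N ≠ 0) :
    (∑' d, f d) = (∏ q ∈ N.primeFactors, (1 + f q)) * ∑' d, cop f N d := by
  have h1 := euler (cop_mul hf N)
  have h2 : HasProd (fun p : Nat.Primes => if (p : ℕ) ∣ N then 1 + f p else (1 : ℝ))
      (∏ p ∈ (N.primeFactors.subtype Nat.Prime : Finset Nat.Primes),
        (if (p : ℕ) ∣ N then 1 + f p else (1 : ℝ))) := by
    apply hasProd_prod_of_ne_finset_one
    intro p hp
    rw [if_neg]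
    intro hd
    exact hp (Finset.mem_subtype.mpr (Nat.mem_primeFactors.mpr ⟨p.2, hd, hN⟩))
  have h3 := h2.mul h1
  have h4 : (fun p : Nat.Primes => (if (p : ℕ) ∣ N then 1 + f p else (1 : ℝ))
      * (1 + cop f N p)) = fun p : Nat.Primes => 1 + f p := by
    funext p
    unfold cop
    by_cases hd : (p : ℕ) ∣ N
    · rw [if_pos hd, if_neg, add_zero, mul_one]
      intro hc
      exact p.2.one_lt.ne' (Nat.dvd_one.mp (by
        have := Nat.dvd_gcd hd (dvd_refl (p : ℕ))
        rwa [hc.gcd_eq_one] at this))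
    · rw [if_neg hd, if_pos ((Nat.Prime.coprime_iff_not_dvd p.2).mpr hd).symm, one_mul]
  rw [h4] at h3
  rw [(euler hf).unique h3]
  congr 1
  have h5 := Finset.prod_subtype_eq_prod_filter (s := N.primeFactors) (p := Nat.Prime)
    (f := fun l : ℕ => if l ∣ N then 1 + f l else (1 : ℝ))
  refine h5.trans ?_
  rw [Finset.filter_true_of_mem (fun q hq => Nat.prime_of_mem_primeFactors hq)]
  apply Finset.prod_congr rfl
  intro q hq
  rw [if_pos (Nat.dvd_of_mem_primeFactors hq)]

/-- the sum over multiples of `N` -/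
theorem sum_mult {f : ℕ → ℝ} (hf : Mul f) (N : ℕ) (hN : Squarefree N) :
    (∑' d, if N ∣ d then f d else 0) = f N * ∑' d, cop f N d := by
  have hN0 : N ≠ 0 := hN.ne_zero
  rw [← tsum_mul_left]
  have hinj : Function.Injective (fun e : ℕ => N * e) := fun a b h =>
    Nat.eq_of_mul_eq_mul_left (Nat.pos_of_ne_zero hN0) h
  rw [← hinj.tsum_eq (f := fun d => if N ∣ d then f d else 0)]
  · apply tsum_congr
    intro e
    rw [if_pos (dvd_mul_right N e)]
    unfold cop
    by_cases h : Nat.Coprime N e
    · rw [if_pos h, hf.mul h]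
    · rw [if_neg h, mul_zero, hf.sqf]
      intro hs
      exact h (Nat.coprime_of_squarefree_mul hs)
  · intro d hd
    rw [Function.mem_support] at hd
    by_cases h : N ∣ d
    · obtain ⟨e, rfl⟩ := h
      exact ⟨e, rfl⟩
    · rw [if_neg h] at hd
      exact absurd rfl hd

theorem mult_prod {f : ℕ → ℝ} (hf : Mul f)
    (s : Finset ℕ) (hs : ∀ p ∈ s, p.Prime) : f (∏ p ∈ s, p) = ∏ p ∈ s, f p := by
  classical
  induction s using Finset.induction_on with
  | empty => simpa using hf.one
  | insert a s ha ih =>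
    rw [Finset.prod_insert ha, Finset.prod_insert ha, hf.mul, ih fun p hp =>
      hs p (Finset.mem_insert_of_mem hp)]
    apply Nat.Coprime.prod_right
    intro p hp
    rw [Nat.coprime_primes (hs a (Finset.mem_insert_self a s)) (hs p (Finset.mem_insert_of_mem hp))]
    rintro rfl
    exact ha hp

/-- the sum over the multiples of `N` as a proportion of the whole sum -/
theorem sum_mult_ratio {f : ℕ → ℝ} (hf : Mul f) (N : ℕ) (hN : Squarefree N)
    (h0 : ∀ q ∈ N.primeFactors, 1 + f q ≠ 0) :
    (∑' d, if N ∣ d then f d else 0) =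
      (∏ q ∈ N.primeFactors, (f q / (1 + f q))) * ∑' d, f d := by
  rw [sum_mult hf N hN, split hf N hN.ne_zero, Finset.prod_div_distrib]
  have h := mult_prod hf N.primeFactors (fun p hp => Nat.prime_of_mem_primeFactors hp)
  rw [Nat.prod_primeFactors_of_squarefree hN] at h
  rw [h]
  have h1 : ∏ q ∈ N.primeFactors, (1 + f q) ≠ 0 := Finset.prod_ne_zero_iff.2 h0
  field_simp

end Pool.Agent.N430.AD
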