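import Pool.Agent.N430.AD.Artin

set_option autoImplicit false

/-! The central limit theorem for the number of primes with a prescribed primitive root `D m²`. -/

namespace Pool.Agent.N430.AD

open Finset Filter Topology MeasureTheory ProbabilityTheory
open Pool.Agent.H730R2.AA (rho cnt mainT)
open Pool.Agent.N430.CLT (avg avgP Phi)

lemma sum_inv_le (x : ℕ) (hx : 1 ≤ x) : ∑ p ∈ CLT.PP x, (1 : ℝ) / p ≤ 1 + Real.log x := by
  have h1 : ∑ p ∈ CLT.PP x, (1 : ℝ) / p ≤ ∑ p ∈ Icc 1 x, (1 : ℝ) / p := by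
    apply Finset.sum_le_sum_of_subset_of_nonneg
    · intro p hp
      rw [CLT.mem_PP] at hp
      exact mem_Icc.2 ⟨hp.2.one_le, hp.1⟩
    · intro p _ _
      positivity
  refine h1.trans ?_
  have h2 := harmonic_le_one_add_log x
  have h3 : ((harmonic x : ℚ) : ℝ) = ∑ p ∈ Icc 1 x, (1 : ℝ) / p := by
    rw [harmonic_eq_sum_Icc]
    push_cast
    exact Finset.sum_congr rfl fun p _ => by rw [one_div]
  rw [← h3]
  exact h2

/-- sums over primes of two functions that differ by `O(1/p)` -/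
lemma sum_close (a b : ℕ → ℝ) (B p0 : ℕ) (c : ℝ) (hc : 0 ≤ c) (hB : ∀ p, p.Prime → |a p - b p| ≤ B)
    (hab : ∀ p, p.Prime → p0 ≤ p → |a p - b p| ≤ c / p) (x : ℕ) (hx : 1 ≤ x) :
    |∑ p ∈ CLT.PP x, a p - ∑ p ∈ CLT.PP x, b p| ≤ p0 * B + c * (1 + Real.log x) := by
  rw [← Finset.sum_sub_distrib]
  refine (Finset.abs_sum_le_sum_abs _ _).trans ?_
  rw [← Finset.sum_filter_add_sum_filter_not (CLT.PP x) (fun p => p < p0)]
  apply add_le_add
  · calc ∑ p ∈ (CLT.PP x).filter (fun p => p < p0), |a p - b p|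
        ≤ ∑ _p ∈ (CLT.PP x).filter (fun p => p < p0), (B : ℝ) := by
          apply Finset.sum_le_sum
          intro p hp
          exact hB p (CLT.mem_PP.1 (mem_filter.1 hp).1).2
      _ = #((CLT.PP x).filter (fun p => p < p0)) * (B : ℝ) := by rw [Finset.sum_const, nsmul_eq_mul]
      _ ≤ p0 * B := by
          apply mul_le_mul_of_nonneg_right _ (Nat.cast_nonneg _)
          have : (CLT.PP x).filter (fun p => p < p0) ⊆ range p0 := by
            intro p hp
            exact mem_range.2 (mem_filter.1 hp).2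
          exact_mod_cast (card_le_card this).trans (le_of_eq (card_range p0))
  · calc ∑ p ∈ (CLT.PP x).filter (fun p => ¬ p < p0), |a p - b p|
        ≤ ∑ p ∈ (CLT.PP x).filter (fun p => ¬ p < p0), c * (1 / (p : ℝ)) := by
          apply Finset.sum_le_sum
          intro p hp
          have := hab p (CLT.mem_PP.1 (mem_filter.1 hp).1).2 (not_lt.1 (mem_filter.1 hp).2)
          rwa [mul_one_div]
      _ ≤ ∑ p ∈ CLT.PP x, c * (1 / (p : ℝ)) := by
          apply Finset.sum_le_sum_of_subset_of_nonneg (Finset.filter_subset _ _)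
          intro p _ _
          positivity
      _ = c * ∑ p ∈ CLT.PP x, (1 : ℝ) / p := by rw [Finset.mul_sum]
      _ ≤ c * (1 + Real.log x) := mul_le_mul_of_nonneg_left (sum_inv_le x hx) hc

lemma sum_GI (D : ℤ) (F : ℕ → ℝ → ℝ) (hF : ∀ p, F p 0 = 0) (x : ℕ) :
    ∑ p ∈ CLT.PP x, F p (GI D p) =
      ∑ p ∈ Pool.Agent.H730R2.AA.PR D x, F p (rho p * (1 - (jacobiSym D p : ℝ))) := by
  classical
  have hsub : Pool.Agent.H730R2.AA.PR D x ⊆ CLT.PP x := by
    intro p hp
    unfold Pool.Agent.H730R2.AA.PR at hp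
    rw [mem_filter, mem_range] at hp
    exact CLT.mem_PP.2 ⟨by omega, hp.2.1⟩
  rw [← Finset.sum_subset hsub]
  · refine Finset.sum_congr rfl fun p hp => ?_
    unfold GI
    rw [if_pos]
    unfold Pool.Agent.H730R2.AA.PR at hp ⊢
    rw [mem_filter, mem_range] at hp ⊢
    exact ⟨by omega, hp.2⟩
  · intro p hp hp2
    unfold GI
    rw [if_neg, hF]
    intro h
    apply hp2
    rw [CLT.mem_PP] at hp
    unfold Pool.Agent.H730R2.AA.PR at h ⊢
    rw [mem_filter, mem_range] at h ⊢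
    exact ⟨by omega, h.2⟩

lemma sum_GI_mainT (D : ℤ) (x : ℕ) : ∑ p ∈ CLT.PP x, GI D p = mainT D x :=
  sum_GI D (fun _ t => t) (fun _ => rfl) x

lemma sum_GI_mainV (D : ℤ) (x : ℕ) : ∑ p ∈ CLT.PP x, GI D p * (1 - GI D p) = mainV D x := by
  rw [sum_GI D (fun _ t => t * (1 - t)) (fun _ => by ring) x]
  unfold mainV
  refine Finset.sum_congr rfl fun p hp => ?_
  unfold Pool.Agent.H730R2.AA.PR at hp
  rw [mem_filter] at hp
  have hne : (D : ZMod p) ≠ 0 := by
    rw [Ne, ZMod.intCast_zmod_eq_zero_iff_dvd]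
    exact hp.2.2.2
  have : Fact p.Prime := ⟨hp.2.1⟩
  have hj : jacobiSym D p = legendreSym p D := (jacobiSym.legendreSym.to_jacobiSym p D).symm
  rcases legendreSym.eq_one_or_neg_one p hne with h | h
  · rw [hj, h]; push_cast; ring
  · rw [hj, h]; push_cast; ring

/-- the centring -/
lemma center (D : ℤ) (hD : Squarefree D) (hD4 : D % 4 = 1) (hD1 : D ≠ 1) (x : ℕ) (hx : 1 ≤ x) :
    |∑ p ∈ CLT.PP x, qI D p - mainT D x| ≤ (D.natAbs + 3 : ℕ) * (1 : ℕ) + 2 * (1 + Real.log x) := by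
  rw [← sum_GI_mainT]
  apply sum_close _ _ 1 (D.natAbs + 3) 2 (by norm_num) _ _ x hx
  · intro p hp
    have h1 := qI_range D hp
    have h2 := GI_range D hp
    rw [abs_le]
    push_cast
    constructor <;> linarith [h1.1, h1.2, h2.1, h2.2]
  · intro p hp hp0
    exact qI_GI D hD hD4 hD1 hp hp0

lemma variance (D : ℤ) (hD : Squarefree D) (hD4 : D % 4 = 1) (hD1 : D ≠ 1) (x : ℕ) (hx : 1 ≤ x) :
    |(dI D).V x - mainV D x| ≤ (D.natAbs + 3 : ℕ) * (1 : ℕ) + 2 * (1 + Real.log x) := by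
  have e : (dI D).V x = ∑ p ∈ CLT.PP x, qI D p * (1 - qI D p) :=
    Finset.sum_congr rfl fun p hp => dI_v D (CLT.mem_PP.1 hp).2
  rw [e, ← sum_GI_mainV]
  have key : ∀ p, p.Prime → |qI D p * (1 - qI D p) - GI D p * (1 - GI D p)| ≤ |qI D p - GI D p| := by
    intro p hp
    have h1 := qI_range D hp
    have h2 := GI_range D hp
    have e2 : qI D p * (1 - qI D p) - GI D p * (1 - GI D p) =
        (qI D p - GI D p) * (1 - qI D p - GI D p) := by ring
    rw [e2, abs_mul]
    apply mul_le_of_le_one_right (abs_nonneg _)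
    rw [abs_le]
    constructor <;> linarith [h1.1, h1.2, h2.1, h2.2]
  apply sum_close _ _ 1 (D.natAbs + 3) 2 (by norm_num) _ _ x hx
  · intro p hp
    refine (key p hp).trans ?_
    have h1 := qI_range D hp
    have h2 := GI_range D hp
    rw [abs_le]
    push_cast
    constructor <;> linarith [h1.1, h1.2, h2.1, h2.2]
  · intro p hp hp0
    exact (key p hp).trans (qI_GI D hD hD4 hD1 hp hp0)

/-- `π(x)` is much larger than `log x` -/
lemma log_small : Tendsto (fun x : ℕ => Real.log x / √(Nat.primeCounting x : ℝ)) atTop (𝓝 0) := by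
  have h1 : Tendsto (fun l : ℝ => l ^ (4 : ℕ) * Real.exp (-l)) atTop (𝓝 0) :=
    Real.tendsto_pow_mul_exp_neg_atTop_nhds_zero 4
  have hl : Tendsto (fun x : ℕ => Real.log (x : ℝ)) atTop atTop :=
    Real.tendsto_log_atTop.comp tendsto_natCast_atTop_atTop
  have h2 := (h1.comp hl).const_mul 10
  rw [mul_zero] at h2
  have h3 := (Real.continuous_sqrt.tendsto 0).comp h2
  rw [Real.sqrt_zero] at h3
  refine squeeze_zero' ?_ ?_ h3
  · filter_upwards [eventually_ge_atTop 1] with x hx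
    exact div_nonneg (Real.log_nonneg (by exact_mod_cast hx)) (Real.sqrt_nonneg _)
  · filter_upwards [eventually_ge_atTop 3] with x hx
    have hx1 : (3 : ℝ) ≤ x := by exact_mod_cast hx
    have hx0 : (0 : ℝ) < x := by linarith
    have hlog : 1 ≤ Real.log x := by
      rw [Real.le_log_iff_exp_le hx0]
      have := Real.exp_one_lt_d9
      linarith
    have hπ := Pool.Agent.H730R2.AA.MTLib.pi_lower x (by omega)
    have hπ0 : (0 : ℝ) < (Nat.primeCounting x : ℝ) := lt_of_lt_of_le (by positivity) hπ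
    change _ ≤ √(10 * ((Real.log x) ^ 4 * Real.exp (-Real.log x)))
    apply Real.le_sqrt_of_sq_le
    rw [div_pow, Real.sq_sqrt hπ0.le, Real.exp_neg, Real.exp_log hx0, div_le_iff₀ hπ0]
    calc (Real.log x) ^ 2 ≤ (Real.log x) ^ 3 := pow_le_pow_right₀ hlog (by norm_num)
      _ = 10 * ((Real.log x) ^ 4 * (x : ℝ)⁻¹) * (x / (10 * Real.log x)) := by
          field_simp
      _ ≤ _ := by gcongr

lemma log_small2 : Tendsto (fun x : ℕ => Real.log x / (Nat.primeCounting x : ℝ)) atTop (𝓝 0) := by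
  refine squeeze_zero' ?_ ?_ log_small
  · filter_upwards [eventually_ge_atTop 1] with x hx
    exact div_nonneg (Real.log_nonneg (by exact_mod_cast hx)) (Nat.cast_nonneg _)
  · filter_upwards [eventually_ge_atTop 2] with x hx
    have hπ0 : (1 : ℝ) ≤ (Nat.primeCounting x : ℝ) := by
      exact_mod_cast Pool.Agent.H730R2.AA.pc_pos x hx
    have hlog : 0 ≤ Real.log x := Real.log_nonneg (by exact_mod_cast (by omega : 1 ≤ x))
    apply div_le_div_of_nonneg_left hlog (Real.sqrt_pos.2 (by linarith))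
    rw [Real.sqrt_le_left (by linarith)]
    nlinarith

lemma pc_top : Tendsto (fun x : ℕ => (Nat.primeCounting x : ℝ)) atTop atTop :=
  Pool.Agent.H730R2.AA.pc_atTop

lemma err_lim (c : ℝ) : Tendsto (fun x : ℕ => (c + 2 * (1 + Real.log x)) /
    √(Nat.primeCounting x : ℝ)) atTop (𝓝 0) := by
  have h1 : Tendsto (fun x : ℕ => (c + 2) / √(Nat.primeCounting x : ℝ)) atTop (𝓝 0) :=
    (Real.tendsto_sqrt_atTop.comp pc_top).const_div_atTop _
  have h2 := h1.add (log_small.const_mul 2)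
  rw [mul_zero, add_zero] at h2
  refine h2.congr fun x => ?_
  ring

lemma err_lim2 (c : ℝ) : Tendsto (fun x : ℕ => (c + 2 * (1 + Real.log x)) /
    (Nat.primeCounting x : ℝ)) atTop (𝓝 0) := by
  have h1 : Tendsto (fun x : ℕ => (c + 2) / (Nat.primeCounting x : ℝ)) atTop (𝓝 0) :=
    pc_top.const_div_atTop _
  have h2 := h1.add (log_small2.const_mul 2)
  rw [mul_zero, add_zero] at h2
  refine h2.congr fun x => ?_
  ring

/-- the variance is asymptotic to `v π(x)` -/
theorem V_lim (D : ℤ) (hD : Squarefree D) (hD4 : D % 4 = 1) (hD1 : D ≠ 1) :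
    Tendsto (fun x : ℕ => (dI D).V x / (Nat.primeCounting x : ℝ)) atTop (𝓝 (vD D)) := by
  have h1 := mainV_lim D hD hD4 hD1
  have h2 : Tendsto (fun x : ℕ => ((dI D).V x - mainV D x) / (Nat.primeCounting x : ℝ)) atTop
      (𝓝 0) := by
    apply squeeze_zero_norm' _ (err_lim2 ((D.natAbs + 3 : ℕ) * (1 : ℕ)))
    filter_upwards [eventually_ge_atTop 1] with x hx
    rw [Real.norm_eq_abs, abs_div, abs_of_nonneg (Nat.cast_nonneg (α := ℝ) _)]
    exact div_le_div_of_nonneg_right (variance D hD hD4 hD1 x hx) (Nat.cast_nonneg _)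
  have h3 := h1.add h2
  rw [add_zero] at h3
  refine h3.congr fun x => ?_
  ring

end Pool.Agent.N430.AD
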