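import Pool.Agent.N430.AD.Euler
import Pool.Agent.H730R2.AA.MainTerm

set_option autoImplicit false

/-! The mean of `(1 - (D/p)) (φ(p-1)/(p-1))^k`. -/

namespace Pool.Agent.N430.AD

open Finset Filter Topology
open Pool.Agent.H730R2.AA (rho PR Wd om Wd_bound Wd_lim)
open Pool.Agent.H730R2.AA.MTLib (mod_iff Wd_zero)

/-- `(1 - 1/l)^k - 1`, and `0` for `l = 2` -/
noncomputable def ak (k l : ℕ) : ℝ := if l = 2 then 0 else (1 - 1 / (l : ℝ)) ^ k - 1

noncomputable def hk (k d : ℕ) : ℝ := if Squarefree d then ∏ l ∈ d.primeFactors, ak k l else 0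

lemma hk_one (k : ℕ) : hk k 1 = 1 := by simp [hk]

lemma hk_sqf (k d : ℕ) (h : ¬ Squarefree d) : hk k d = 0 := by rw [hk, if_neg h]

lemma hk_mul (k : ℕ) {m n : ℕ} (h : Nat.Coprime m n) : hk k (m * n) = hk k m * hk k n := by
  unfold hk
  by_cases h1 : Squarefree m
  · by_cases h2 : Squarefree n
    · rw [if_pos ((Nat.squarefree_mul h).2 ⟨h1, h2⟩), if_pos h1, if_pos h2,
        h.primeFactors_mul, Finset.prod_union h.disjoint_primeFactors]
    · rw [if_neg (fun h3 => h2 ((Nat.squarefree_mul h).1 h3).2), if_neg h2, mul_zero]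
  · rw [if_neg (fun h3 => h1 ((Nat.squarefree_mul h).1 h3).1), if_neg h1, zero_mul]

lemma hk_even (k : ℕ) {d : ℕ} (h : 2 ∣ d) : hk k d = 0 := by
  unfold hk
  split_ifs with hs
  · apply Finset.prod_eq_zero (i := 2)
    · exact Nat.mem_primeFactors.2 ⟨Nat.prime_two, h, hs.ne_zero⟩
    · simp [ak]
  · rfl

lemma hk_prime (k : ℕ) {l : ℕ} (hl : l.Prime) : hk k l = ak k l := by
  rw [hk, if_pos hl.squarefree, hl.primeFactors, Finset.prod_singleton]

/-- expansion of the product over prime factors -/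
lemma prod_eq_sum (k n : ℕ) (hn : n ≠ 0) :
    ∏ l ∈ n.primeFactors, (1 + ak k l) = ∑ d ∈ n.divisors, hk k d := by
  classical
  rw [Finset.prod_one_add]
  have h1 : ∑ d ∈ n.divisors, hk k d = ∑ d ∈ n.divisors.filter Squarefree, hk k d := by
    rw [Finset.sum_filter]
    refine Finset.sum_congr rfl fun d _ => ?_
    split_ifs with h
    · rfl
    · exact hk_sqf k d h
  rw [h1, Nat.sum_divisors_filter_squarefree hn]
  have h2 : (UniqueFactorizationMonoid.normalizedFactors n).toFinset = n.primeFactors := by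
    rw [Nat.primeFactors]
    congr 1
    rw [← Nat.factors_eq]
  rw [h2]
  refine Finset.sum_congr rfl fun T hT => ?_
  rw [Finset.mem_powerset] at hT
  have hTp : ∀ p ∈ T, p.Prime := fun p hp => Nat.prime_of_mem_primeFactors (hT hp)
  have h3 : T.val.prod = ∏ p ∈ T, p := by
    rw [Finset.prod_val]
    simp
  rw [h3]
  have hsq : Squarefree (∏ p ∈ T, p) := by
    refine Finset.squarefree_prod_of_pairwise_isCoprime ?_ ?_
    · intro a ha b hb hab
      exact Nat.coprime_iff_isRelPrime.1 ((Nat.coprime_primes (hTp a ha) (hTp b hb)).2 hab)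
    · exact fun p hp => (hTp p hp).squarefree
  rw [hk, if_pos hsq, Nat.primeFactors_prod hTp]

lemma rho_pow (k : ℕ) {p : ℕ} (hp : p.Prime) (h2 : p ≠ 2) :
    rho p ^ k = (1 / 2 : ℝ) ^ k * ∑ d ∈ (p - 1).divisors, hk k d := by
  have h0 : p - 1 ≠ 0 := by have := hp.two_le; omega
  have hev : 2 ∣ p - 1 := by
    have := hp.eq_two_or_odd
    omega
  rw [← prod_eq_sum k _ h0]
  have h3 : rho p = ∏ l ∈ (p - 1).primeFactors, (1 - 1 / (l : ℝ)) := by
    unfold rho
    have h4 := Nat.totient_eq_mul_prod_factors (p - 1)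
    have h5 : ((Nat.totient (p - 1) : ℝ)) = ((p - 1 : ℕ) : ℝ) *
        ∏ l ∈ (p - 1).primeFactors, (1 - 1 / (l : ℝ)) := by
      have := congrArg (fun q : ℚ => (q : ℝ)) h4
      push_cast at this
      simpa using this
    rw [h5]
    have h6 : ((p - 1 : ℕ) : ℝ) ≠ 0 := by exact_mod_cast h0
    field_simp
  have h2m : 2 ∈ (p - 1).primeFactors := Nat.mem_primeFactors.2 ⟨Nat.prime_two, hev, h0⟩
  rw [h3, ← Finset.mul_prod_erase _ _ h2m, ← Finset.mul_prod_erase _ (fun l => 1 + ak k l) h2m]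
  have h7 : 1 + ak k 2 = 1 := by simp [ak]
  rw [h7, one_mul, mul_pow, ← Finset.prod_pow]
  congr 1
  · norm_num
  · refine Finset.prod_congr rfl fun l hl => ?_
    rw [Finset.mem_erase] at hl
    unfold ak
    rw [if_neg hl.1]
    ring

/-- the main term -/
noncomputable def mainK (D : ℤ) (k x : ℕ) : ℝ :=
  ∑ p ∈ PR D x, rho p ^ k * (1 - (jacobiSym D p : ℝ))

lemma W_odd (D : ℤ) {d : ℕ} (hd : ¬ 2 ∣ d) (x : ℕ) :
    2 * Wd D d x - Wd D (2 * d) x =
      ∑ p ∈ (PR D x).filter (fun p => p % d = 1 % d), (1 - (jacobiSym D p : ℝ)) := by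
  have hfil : (PR D x).filter (fun p => p % (2 * d) = 1 % (2 * d)) =
      (PR D x).filter (fun p => p % d = 1 % d) := by
    apply Finset.filter_congr
    intro p hp
    unfold PR at hp
    rw [Finset.mem_filter] at hp
    rw [mod_iff hp.2.1.one_le, mod_iff hp.2.1.one_le]
    have hev : 2 ∣ p - 1 := by
      have := hp.2.1.eq_two_or_odd
      have := hp.2.2.1
      omega
    constructor
    · exact fun h => (Dvd.intro_left 2 rfl).trans h
    · intro h
      exact Nat.Coprime.mul_dvd_of_dvd_of_dvd ((Nat.Prime.coprime_iff_not_dvd Nat.prime_two).2 hd)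
        hev h
  unfold Wd
  rw [hfil, Finset.mul_sum, ← Finset.sum_sub_distrib]
  refine Finset.sum_congr rfl fun p _ => ?_
  rw [if_neg hd, if_pos (Dvd.intro d rfl)]
  ring

theorem main_eqK (D : ℤ) (k x : ℕ) :
    mainK D k x = (1 / 2 : ℝ) ^ k * ∑' d : ℕ, hk k d * (2 * Wd D d x - Wd D (2 * d) x) := by
  rw [tsum_eq_sum (s := Finset.range (x + 1)) (by
    intro d hd
    rw [Finset.mem_range, not_lt] at hd
    rw [Wd_zero D (by omega), Wd_zero D (by omega)]
    simp)]
  have e1 : ∀ d ∈ Finset.range (x + 1), hk k d * (2 * Wd D d x - Wd D (2 * d) x) =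
      ∑ p ∈ PR D x, (if d ∣ p - 1 then hk k d * (1 - (jacobiSym D p : ℝ)) else 0) := by
    intro d _
    by_cases hd : 2 ∣ d
    · rw [hk_even k hd]
      simp
    · rw [W_odd D hd, Finset.mul_sum, Finset.sum_filter]
      apply Finset.sum_congr rfl
      intro p hp
      rw [PR, Finset.mem_filter] at hp
      simp only [mod_iff hp.2.1.one_le]
  rw [Finset.sum_congr rfl e1, Finset.sum_comm, mainK, Finset.mul_sum]
  apply Finset.sum_congr rfl
  intro p hp
  rw [PR, Finset.mem_filter, Finset.mem_range] at hp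
  obtain ⟨hpx, hpp, hp2, -⟩ := hp
  rw [rho_pow k hpp hp2, ← Finset.sum_filter, mul_assoc, Finset.sum_mul]
  congr 1
  have h2 := hpp.two_le
  apply Finset.sum_subset_zero_on_sdiff
  · intro d hd
    rw [Nat.mem_divisors] at hd
    rw [Finset.mem_filter, Finset.mem_range]
    have := Nat.le_of_dvd (by omega) hd.1
    exact ⟨by omega, hd.1⟩
  · intro d hd
    rw [Finset.mem_sdiff, Finset.mem_filter, Nat.mem_divisors] at hd
    exfalso
    exact hd.2 ⟨hd.1.2, by omega⟩
  · intro d _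
    rfl

lemma ak_bound (k : ℕ) {l : ℕ} (hl : l.Prime) : |ak k l| ≤ k / (l : ℝ) ∧ ak k l ≤ 0 ∧ -1 ≤ ak k l := by
  have hl2 : (2 : ℝ) ≤ l := by exact_mod_cast hl.two_le
  unfold ak
  split_ifs with h
  · simp
    positivity
  · have h0 : 0 ≤ 1 - 1 / (l : ℝ) := by
      have : 1 / (l : ℝ) ≤ 1 := by rw [div_le_one (by linarith)]; linarith
      linarith
    have h1 : 1 - 1 / (l : ℝ) ≤ 1 := by
      have : 0 < 1 / (l : ℝ) := by positivity
      linarith
    have h2 : (1 - 1 / (l : ℝ)) ^ k ≤ 1 := pow_le_one₀ h0 h1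
    have h3 : 0 ≤ (1 - 1 / (l : ℝ)) ^ k := pow_nonneg h0 k
    have h4 := one_add_mul_le_pow (a := -(1 / (l : ℝ))) (by linarith) k
    have h5 : (1 + -(1 / (l : ℝ))) ^ k = (1 - 1 / (l : ℝ)) ^ k := by ring
    rw [h5] at h4
    refine ⟨?_, by linarith, by linarith⟩
    rw [abs_of_nonpos (by linarith)]
    have h6 : (k : ℝ) * -(1 / (l : ℝ)) = -(k / (l : ℝ)) := by ring
    rw [h6] at h4
    linarith

lemma hk_bound (k : ℕ) : ∃ C : ℝ, 0 < C ∧ ∀ d : ℕ, 1 ≤ d → |hk k d| ≤ C * (d : ℝ) ^ (-(7 : ℝ) / 8) := by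
  set B : ℕ := (k + 1) ^ 8 with hB
  refine ⟨((k : ℝ) + 1) ^ B, by positivity, fun d hd => ?_⟩
  have hd0 : (0 : ℝ) < d := by exact_mod_cast hd
  unfold hk
  split_ifs with hs
  · rw [Finset.abs_prod]
    have h1 : ∀ l ∈ d.primeFactors, |ak k l| ≤
        (if l < B then ((k : ℝ) + 1) else 1) * (l : ℝ) ^ (-(7 : ℝ) / 8) := by
      intro l hl
      have hlp := Nat.prime_of_mem_primeFactors hl
      have hl0 : (0 : ℝ) < l := by exact_mod_cast hlp.pos
      have hl1 : (1 : ℝ) ≤ l := by exact_mod_cast hlp.one_le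
      refine (ak_bound k hlp).1.trans ?_
      have e : (k : ℝ) / l = (k * (l : ℝ) ^ (-(1 : ℝ) / 8)) * (l : ℝ) ^ (-(7 : ℝ) / 8) := by
        rw [mul_assoc, ← Real.rpow_add hl0]
        norm_num
        rw [Real.rpow_neg_one]
        rfl
      rw [e]
      apply mul_le_mul_of_nonneg_right _ (by positivity)
      split_ifs with hlB
      · have : (l : ℝ) ^ (-(1 : ℝ) / 8) ≤ 1 :=
          Real.rpow_le_one_of_one_le_of_nonpos hl1 (by norm_num)
        have hk0 : (0 : ℝ) ≤ k := Nat.cast_nonneg k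
        nlinarith
      · push Not at hlB
        have h2 : ((k : ℝ) + 1) ^ 8 ≤ l := by
          have : ((B : ℕ) : ℝ) ≤ l := by exact_mod_cast hlB
          rw [hB] at this
          push_cast at this
          exact this
        have h3 : (k : ℝ) + 1 ≤ (l : ℝ) ^ ((1 : ℝ) / 8) := by
          have h4 := Real.rpow_le_rpow (by positivity) h2 (show (0 : ℝ) ≤ 1 / 8 by norm_num)
          rw [← Real.rpow_natCast, ← Real.rpow_mul (by positivity)] at h4
          norm_num at h4
          norm_num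
          exact h4
        have h5 : (l : ℝ) ^ (-(1 : ℝ) / 8) = ((l : ℝ) ^ ((1 : ℝ) / 8))⁻¹ := by
          rw [← Real.rpow_neg hl0.le]
          norm_num
        rw [h5, ← div_eq_mul_inv, div_le_one (by positivity)]
        linarith
    refine (Finset.prod_le_prod (fun _ _ => abs_nonneg _) h1).trans ?_
    rw [Finset.prod_mul_distrib]
    have h6 : ∏ l ∈ d.primeFactors, (l : ℝ) ^ (-(7 : ℝ) / 8) = (d : ℝ) ^ (-(7 : ℝ) / 8) := by
      rw [Real.finsetProd_rpow _ _ (fun i _ => Nat.cast_nonneg i)]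
      congr 1
      have h7 := Nat.prod_primeFactors_of_squarefree hs
      calc ∏ i ∈ d.primeFactors, (i : ℝ) = ((∏ i ∈ d.primeFactors, i : ℕ) : ℝ) := by push_cast; rfl
        _ = d := by rw [h7]
    rw [h6]
    apply mul_le_mul_of_nonneg_right _ (by positivity)
    have hk1 : (1 : ℝ) ≤ (k : ℝ) + 1 := by
      have : (0 : ℝ) ≤ k := Nat.cast_nonneg k
      linarith
    rw [Finset.prod_ite, Finset.prod_const, Finset.prod_const_one, mul_one]
    apply pow_le_pow_right₀ hk1
    have : d.primeFactors.filter (fun l => l < B) ⊆ Finset.range B := by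
      intro l hl
      rw [Finset.mem_filter] at hl
      exact Finset.mem_range.2 hl.2
    simpa using Finset.card_le_card this
  · rw [abs_zero]
    positivity

/-- `(1 - (1 - 1/l)^k) / (l - 1)` -/
noncomputable def cK (k l : ℕ) : ℝ := (1 - (1 - 1 / (l : ℝ)) ^ k) / ((l : ℝ) - 1)

/-- the mean value of `(1 - (D/p)) (φ(p-1)/(p-1))^k` over the primes -/
noncomputable def densK (k : ℕ) (D : ℤ) : ℝ :=
  (1 - ∏ q ∈ D.natAbs.primeFactors, (-(cK k q) / (1 - cK k q))) *
    ∏' p : Nat.Primes, (1 - cK k p)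

noncomputable def fk (k d : ℕ) : ℝ := hk k d / (Nat.totient d : ℝ)

lemma fk_mul (k : ℕ) : Mul (fk k) where
  one := by simp [fk, hk_one]
  mul := by
    intro m n h
    unfold fk
    rw [hk_mul k h, Nat.totient_mul h]
    push_cast
    rw [div_mul_div_comm]
  sqf := by
    intro d hd
    unfold fk
    rw [hk_sqf k d hd, zero_div]
  summ := by
    obtain ⟨C, hC, hb⟩ := hk_bound k
    refine Summable.of_nonneg_of_le (fun _ => norm_nonneg _)
      (f := fun d : ℕ => 2 * C * (d : ℝ) ^ (-(11 : ℝ) / 8)) (fun d => ?_) ?_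
    · rcases Nat.eq_zero_or_pos d with rfl | hd
      · simp [fk]
      · have hd0 : (0 : ℝ) < d := by exact_mod_cast hd
        have h1 := hb d hd
        have h2 := Pool.Agent.H730R2.AA.Euler.sqrt_le_totient d hd
        have ht : (0 : ℝ) < Nat.totient d := by exact_mod_cast Nat.totient_pos.mpr hd
        unfold fk
        rw [Real.norm_eq_abs, abs_div, abs_of_pos ht, div_le_iff₀ ht]
        have e : (d : ℝ) ^ (-(7 : ℝ) / 8) = (d : ℝ) ^ (-(11 : ℝ) / 8) * √(d : ℝ) := by
          rw [Real.sqrt_eq_rpow, ← Real.rpow_add hd0]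
          norm_num
        calc |hk k d| ≤ C * (d : ℝ) ^ (-(7 : ℝ) / 8) := h1
          _ = C * (d : ℝ) ^ (-(11 : ℝ) / 8) * √(d : ℝ) := by rw [e]; ring
          _ ≤ C * (d : ℝ) ^ (-(11 : ℝ) / 8) * (2 * Nat.totient d) := by gcongr
          _ = _ := by ring
    · apply Summable.mul_left
      rw [Real.summable_nat_rpow]
      norm_num

lemma fk_prime (k : ℕ) {l : ℕ} (hl : l.Prime) (h2 : l ≠ 2) : fk k l = -(cK k l) := by
  have hl2 : (2 : ℝ) ≤ l := by exact_mod_cast hl.two_le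
  unfold fk cK
  rw [hk_prime k hl, ak, if_neg h2, Nat.totient_prime hl, Nat.cast_sub hl.one_le]
  push_cast
  rw [← neg_div]
  congr 1
  ring

lemma cK_two (k : ℕ) : 1 - cK k 2 = (1 / 2 : ℝ) ^ k := by
  unfold cK
  norm_num

lemma cK_lt (k : ℕ) {l : ℕ} (hl : l.Prime) (h2 : l ≠ 2) : 0 ≤ cK k l ∧ cK k l ≤ 1 / 2 := by
  have hl3 : (3 : ℝ) ≤ l := by
    have := hl.two_le
    exact_mod_cast (by omega : 3 ≤ l)
  unfold cK
  have h0 : 0 ≤ 1 - 1 / (l : ℝ) := by
    have : 1 / (l : ℝ) ≤ 1 := by rw [div_le_one (by linarith)]; linarith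
    linarith
  have h1 : 1 - 1 / (l : ℝ) ≤ 1 := by
    have : 0 < 1 / (l : ℝ) := by positivity
    linarith
  have h3 : (1 - 1 / (l : ℝ)) ^ k ≤ 1 := pow_le_one₀ h0 h1
  have h4 : 0 ≤ (1 - 1 / (l : ℝ)) ^ k := pow_nonneg h0 k
  constructor
  · apply div_nonneg <;> linarith
  · rw [div_le_iff₀ (by linarith)]
    linarith

theorem euler_densK (D : ℤ) (hD : Squarefree D) (hD1 : D % 4 = 1) (k : ℕ) :
    (1 / 2 : ℝ) ^ k * ∑' d : ℕ, hk k d * (2 * om D d - om D (2 * d)) = densK k D := by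
  have hf := fk_mul k
  have hN : Squarefree D.natAbs := Int.squarefree_natAbs.2 hD
  have hodd : ∀ q ∈ D.natAbs.primeFactors, q ≠ 2 := by
    rintro q hq rfl
    have h1 := Nat.dvd_of_mem_primeFactors hq
    have h2 : (2 : ℤ) ∣ D := Int.natCast_dvd.2 h1
    omega
  have e1 : ∀ d : ℕ, hk k d * (2 * om D d - om D (2 * d)) =
      fk k d - (if D.natAbs ∣ d then fk k d else 0) := by
    intro d
    by_cases hd : 2 ∣ d
    · unfold fk
      rw [hk_even k hd]
      simp
    · have hd0 : d ≠ 0 := by rintro rfl; simp at hd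
      have hc : Nat.Coprime 2 d := (Nat.Prime.coprime_iff_not_dvd Nat.prime_two).2 hd
      unfold om fk
      rw [if_neg (fun h => hd ((Dvd.intro _ rfl).trans h)), Nat.totient_mul hc, Nat.totient_two,
        one_mul]
      have h3 : (2 * D.natAbs ∣ 2 * d) ↔ (D.natAbs ∣ d) := Nat.mul_dvd_mul_iff_left (by norm_num)
      by_cases hdv : D.natAbs ∣ d
      · rw [if_pos (h3.2 hdv), if_pos hdv]
        ring
      · rw [if_neg (fun h => hdv (h3.1 h)), if_neg hdv]
        ring
  rw [tsum_congr e1]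
  have hs1 : Summable (fk k) := hf.summ.of_norm
  have hs2 : Summable (fun d => if D.natAbs ∣ d then fk k d else 0) := by
    apply Summable.of_norm
    refine Summable.of_nonneg_of_le (fun _ => norm_nonneg _) (fun d => ?_) hf.summ
    split_ifs
    · exact le_rfl
    · rw [norm_zero]; exact norm_nonneg _
  rw [hs1.tsum_sub hs2]
  have hne : ∀ q ∈ D.natAbs.primeFactors, 1 + fk k q ≠ 0 := by
    intro q hq
    rw [fk_prime k (Nat.prime_of_mem_primeFactors hq) (hodd q hq)]
    have := cK_lt k (Nat.prime_of_mem_primeFactors hq) (hodd q hq)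
    intro h
    linarith [this.2]
  rw [sum_mult_ratio hf _ hN hne]
  have h4 : ∏ q ∈ D.natAbs.primeFactors, (fk k q / (1 + fk k q)) =
      ∏ q ∈ D.natAbs.primeFactors, (-(cK k q) / (1 - cK k q)) := by
    refine Finset.prod_congr rfl fun q hq => ?_
    rw [fk_prime k (Nat.prime_of_mem_primeFactors hq) (hodd q hq)]
    ring
  rw [h4]
  -- the Euler product with the factor at 2
  have h5 := euler hf
  have h6 : HasProd (fun p : Nat.Primes => if (p : ℕ) = 2 then (1 / 2 : ℝ) ^ k else 1)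
      ((1 / 2 : ℝ) ^ k) := by
    classical
    have := hasProd_ite_eq (⟨2, Nat.prime_two⟩ : Nat.Primes) ((1 / 2 : ℝ) ^ k)
    have e : (fun p : Nat.Primes => if (p : ℕ) = 2 then (1 / 2 : ℝ) ^ k else 1) =
        fun p : Nat.Primes => if p = (⟨2, Nat.prime_two⟩ : Nat.Primes) then (1 / 2 : ℝ) ^ k else 1 := by
      funext p
      have : (p : ℕ) = 2 ↔ p = (⟨2, Nat.prime_two⟩ : Nat.Primes) :=
        ⟨fun h => Subtype.ext h, fun h => by rw [h]⟩
      by_cases h : (p : ℕ) = 2
      · rw [if_pos h, if_pos (this.1 h)]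
      · rw [if_neg h, if_neg (fun h' => h (this.2 h'))]
    rw [e]
    exact this
  have h7 := h6.mul h5
  have h8 : (fun p : Nat.Primes => (if (p : ℕ) = 2 then (1 / 2 : ℝ) ^ k else 1) * (1 + fk k p)) =
      fun p : Nat.Primes => 1 - cK k p := by
    funext p
    by_cases h : (p : ℕ) = 2
    · rw [if_pos h, h, cK_two]
      unfold fk
      rw [hk_even k (dvd_refl 2)]
      simp
    · rw [if_neg h, fk_prime k p.2 h]
      ring
  rw [h8] at h7
  unfold densK
  rw [h7.tprod_eq]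
  ring

/-- **the mean value** of `(1 - (D/p)) (φ(p-1)/(p-1))^k` -/
theorem main_limK (D : ℤ) (hD : Squarefree D) (hD1 : D % 4 = 1) (hD2 : D ≠ 1) (k : ℕ) :
    Tendsto (fun x : ℕ => mainK D k x / (Nat.primeCounting x : ℝ)) atTop (𝓝 (densK k D)) := by
  obtain ⟨C, hC, hb⟩ := Wd_bound D
  obtain ⟨C₂, hC₂, hb₂⟩ := hk_bound k
  rw [← euler_densK D hD hD1 k]
  have e1 : ∀ x : ℕ, mainK D k x / (Nat.primeCounting x : ℝ) =
      (1 / 2 : ℝ) ^ k * ∑' d : ℕ, hk k d * (2 * (Wd D d x / (Nat.primeCounting x : ℝ)) -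
        Wd D (2 * d) x / (Nat.primeCounting x : ℝ)) := by
    intro x
    rw [main_eqK, mul_div_assoc, ← tsum_div_const]
    congr 1
    apply tsum_congr
    intro d
    ring
  simp_rw [e1]
  apply Tendsto.const_mul
  apply tendsto_tsum_of_dominated_convergence
    (bound := fun d : ℕ => 3 * C * C₂ * (d : ℝ) ^ (-(9 : ℝ) / 8))
  · apply Summable.mul_left
    rw [Real.summable_nat_rpow]
    norm_num
  · intro d
    rcases Nat.eq_zero_or_pos d with rfl | hd
    · have : hk k 0 = 0 := hk_sqf k 0 (by simp)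
      simp [this]
    · exact (((Wd_lim D hD hD1 hD2 d hd).const_mul 2).sub
        (Wd_lim D hD hD1 hD2 (2 * d) (by omega))).const_mul _
  · filter_upwards [eventually_ge_atTop 2] with x hx d
    rcases Nat.eq_zero_or_pos d with rfl | hd
    · have : hk k 0 = 0 := hk_sqf k 0 (by simp)
      simp [this]
    · have hd0 : (0 : ℝ) < d := by exact_mod_cast hd
      have h1 := hb d x hd hx
      have h2 := hb (2 * d) x (by omega) hx
      have h3 : (((2 * d : ℕ) : ℝ)) ^ (-(1 : ℝ) / 4) ≤ (d : ℝ) ^ (-(1 : ℝ) / 4) := by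
        apply Real.rpow_le_rpow_of_nonpos hd0 _ (by norm_num)
        push_cast
        linarith
      have h4 := hb₂ d hd
      have hπ : (0 : ℝ) ≤ (Nat.primeCounting x : ℝ) := Nat.cast_nonneg _
      have h5 : |2 * (Wd D d x / (Nat.primeCounting x : ℝ)) - Wd D (2 * d) x /
          (Nat.primeCounting x : ℝ)| ≤ 3 * C * (d : ℝ) ^ (-(1 : ℝ) / 4) := by
        have h6 : |Wd D d x / (Nat.primeCounting x : ℝ)| ≤ C * (d : ℝ) ^ (-(1 : ℝ) / 4) := by
          rw [abs_div, abs_of_nonneg hπ]; exact h1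
        have h7 : |Wd D (2 * d) x / (Nat.primeCounting x : ℝ)| ≤ C * (d : ℝ) ^ (-(1 : ℝ) / 4) := by
          rw [abs_div, abs_of_nonneg hπ]
          exact h2.trans (mul_le_mul_of_nonneg_left h3 hC.le)
        rw [abs_le] at h6 h7 ⊢
        constructor <;> linarith [h6.1, h6.2, h7.1, h7.2]
      rw [Real.norm_eq_abs, abs_mul]
      calc |hk k d| * |2 * (Wd D d x / (Nat.primeCounting x : ℝ)) - Wd D (2 * d) x /
            (Nat.primeCounting x : ℝ)|
          ≤ (C₂ * (d : ℝ) ^ (-(7 : ℝ) / 8)) * (3 * C * (d : ℝ) ^ (-(1 : ℝ) / 4)) :=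
            mul_le_mul h4 h5 (abs_nonneg _) (by positivity)
        _ = 3 * C * C₂ * ((d : ℝ) ^ (-(7 : ℝ) / 8) * (d : ℝ) ^ (-(1 : ℝ) / 4)) := by ring
        _ = _ := by
            rw [← Real.rpow_add hd0]
            norm_num

end Pool.Agent.N430.AD
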