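import Pool.Agent.N430.AD.MainK
import Pool.Agent.H771R4.SE.Datum

set_option autoImplicit false

/-! The variance constant is positive. -/

namespace Pool.Agent.N430.AD

open Finset Filter Topology
open Pool.Agent.H730R2.AA (rho PR Wd om Wd_bound Wd_lim)
open Pool.Agent.H730R2.AA.MTLib (mod_iff Wd_zero)
open Pool.Agent.H386R2.Artin (PP hL gL sumH)

/-- the variance constant -/
noncomputable def vD (D : ℤ) : ℝ := densK 1 D - 2 * densK 2 D

/-- the main term of the variance -/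
noncomputable def mainV (D : ℤ) (x : ℕ) : ℝ :=
  ∑ p ∈ PR D x, (1 - (jacobiSym D p : ℝ)) * (rho p * (1 - 2 * rho p))

lemma mainV_eq (D : ℤ) (x : ℕ) : mainV D x = mainK D 1 x - 2 * mainK D 2 x := by
  unfold mainV mainK
  rw [Finset.mul_sum, ← Finset.sum_sub_distrib]
  exact Finset.sum_congr rfl fun p _ => by ring

theorem mainV_lim (D : ℤ) (hD : Squarefree D) (hD1 : D % 4 = 1) (hD2 : D ≠ 1) :
    Tendsto (fun x : ℕ => mainV D x / (Nat.primeCounting x : ℝ)) atTop (𝓝 (vD D)) := by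
  have h := (main_limK D hD hD1 hD2 1).sub ((main_limK D hD hD1 hD2 2).const_mul 2)
  refine h.congr fun x => ?_
  rw [mainV_eq]
  ring

lemma rho_eq_prod {p : ℕ} (hp : p.Prime) :
    rho p = ∏ l ∈ (p - 1).primeFactors, (1 - 1 / (l : ℝ)) := by
  have h0 : p - 1 ≠ 0 := by have := hp.two_le; omega
  unfold rho
  have h4 := Nat.totient_eq_mul_prod_factors (p - 1)
  have h5 : ((Nat.totient (p - 1) : ℝ)) = ((p - 1 : ℕ) : ℝ) *
      ∏ l ∈ (p - 1).primeFactors, (1 - 1 / (l : ℝ)) := by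
    have := congrArg (fun q : ℚ => (q : ℝ)) h4
    push_cast at this
    simpa using this
  rw [h5]
  have h6 : ((p - 1 : ℕ) : ℝ) ≠ 0 := by exact_mod_cast h0
  field_simp

lemma fac_nn {l : ℕ} (hl : l.Prime) : 0 < 1 - 1 / (l : ℝ) ∧ 1 - 1 / (l : ℝ) ≤ 1 := by
  have hl2 : (2 : ℝ) ≤ l := by exact_mod_cast hl.two_le
  have h1 : 1 / (l : ℝ) ≤ 1 / 2 := one_div_le_one_div_of_le (by norm_num) hl2
  have h2 : 0 < 1 / (l : ℝ) := by positivity
  constructor <;> linarith

lemma rho_lower {p : ℕ} (hp : p.Prime) (L : ℕ) :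
    (∏ l ∈ PP L, (1 - 1 / (l : ℝ))) * (1 - hL L (p - 1)) ≤ rho p := by
  classical
  rw [rho_eq_prod hp]
  by_cases hh : 1 - hL L (p - 1) ≤ 0
  · have h1 : 0 ≤ ∏ l ∈ PP L, (1 - 1 / (l : ℝ)) := Finset.prod_nonneg fun l hl =>
      (fac_nn (by unfold PP at hl; exact (mem_filter.1 hl).2)).1.le
    have h2 : 0 ≤ ∏ l ∈ (p - 1).primeFactors, (1 - 1 / (l : ℝ)) := Finset.prod_nonneg fun l hl =>
      (fac_nn (Nat.prime_of_mem_primeFactors hl)).1.le
    exact (mul_nonpos_of_nonneg_of_nonpos h1 hh).trans h2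
  push Not at hh
  rw [← Finset.prod_filter_mul_prod_filter_not (p - 1).primeFactors (fun l => l ≤ L)]
  have h3 : ∏ l ∈ PP L, (1 - 1 / (l : ℝ)) ≤
      ∏ l ∈ (p - 1).primeFactors.filter (fun l => l ≤ L), (1 - 1 / (l : ℝ)) := by
    apply Finset.prod_le_prod_of_subset_of_le_one
    · intro l hl
      rw [mem_filter] at hl
      unfold PP
      rw [mem_filter, mem_range]
      exact ⟨by omega, Nat.prime_of_mem_primeFactors hl.1⟩
    · intro l hl
      exact (fac_nn (by unfold PP at hl; exact (mem_filter.1 hl).2)).1.le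
    · intro l hl _
      exact (fac_nn (by unfold PP at hl; exact (mem_filter.1 hl).2)).2
  have hR : ∀ l ∈ (p - 1).primeFactors.filter (fun l => L < l), 1 ≤ l := by
    intro l hl
    exact (Nat.prime_of_mem_primeFactors (mem_filter.1 hl).1).one_le
  obtain ⟨h4, h5, h6⟩ := Pool.Agent.H730R2.AB.one_sub_sum_le _ hR
  have h7 : (p - 1).primeFactors.filter (fun l => ¬ l ≤ L) =
      (p - 1).primeFactors.filter (fun l => L < l) := by
    apply Finset.filter_congr
    intro l _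
    exact not_le
  rw [h7]
  have h8 : 0 ≤ ∏ l ∈ PP L, (1 - 1 / (l : ℝ)) := Finset.prod_nonneg fun l hl =>
      (fac_nn (by unfold PP at hl; exact (mem_filter.1 hl).2)).1.le
  have h9 : 1 - hL L (p - 1) ≤
      ∏ l ∈ (p - 1).primeFactors.filter (fun l => L < l), (1 - 1 / (l : ℝ)) := h4
  exact mul_le_mul h3 h9 hh.le (h8.trans h3)

lemma jac_range (D : ℤ) (p : ℕ) : 0 ≤ 1 - (jacobiSym D p : ℝ) ∧ 1 - (jacobiSym D p : ℝ) ≤ 2 := by
  rcases jacobiSym.trichotomy D p with h | h | h <;> rw [h] <;> norm_num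

lemma rho_half {p l : ℕ} (hp : p.Prime) (hp2 : p ≠ 2) (hl : l.Prime) (hl2 : l ≠ 2)
    (hd : l ∣ p - 1) : 2 * rho p ≤ 1 - 1 / (l : ℝ) := by
  have h0 : p - 1 ≠ 0 := by have := hp.two_le; omega
  have hev : 2 ∣ p - 1 := by
    have := hp.eq_two_or_odd
    omega
  rw [rho_eq_prod hp]
  have hsub : ({2, l} : Finset ℕ) ⊆ (p - 1).primeFactors := by
    intro q hq
    rw [mem_insert, mem_singleton] at hq
    rcases hq with rfl | rfl
    · exact Nat.mem_primeFactors.2 ⟨Nat.prime_two, hev, h0⟩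
    · exact Nat.mem_primeFactors.2 ⟨hl, hd, h0⟩
  have h1 := Finset.prod_le_prod_of_subset_of_le_one (f := fun l : ℕ => 1 - 1 / (l : ℝ)) hsub
    (fun q hq => (fac_nn (Nat.prime_of_mem_primeFactors hq)).1.le)
    (fun q hq _ => (fac_nn (Nat.prime_of_mem_primeFactors hq)).2)
  rw [Finset.prod_pair (fun h => hl2 h.symm)] at h1
  have h2 : (1 - 1 / ((2 : ℕ) : ℝ)) = 1 / 2 := by norm_num
  rw [h2] at h1
  linarith

lemma two_rho_le {p : ℕ} (hp : p.Prime) (hp2 : p ≠ 2) : 2 * rho p ≤ 1 := by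
  have h0 : p - 1 ≠ 0 := by have := hp.two_le; omega
  have hev : 2 ∣ p - 1 := by
    have := hp.eq_two_or_odd
    omega
  rw [rho_eq_prod hp]
  have hsub : ({2} : Finset ℕ) ⊆ (p - 1).primeFactors := by
    intro q hq
    rw [mem_singleton] at hq
    subst hq
    exact Nat.mem_primeFactors.2 ⟨Nat.prime_two, hev, h0⟩
  have h1 := Finset.prod_le_prod_of_subset_of_le_one (f := fun l : ℕ => 1 - 1 / (l : ℝ)) hsub
    (fun q hq => (fac_nn (Nat.prime_of_mem_primeFactors hq)).1.le)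
    (fun q hq _ => (fac_nn (Nat.prime_of_mem_primeFactors hq)).2)
  rw [Finset.prod_singleton] at h1
  have h2 : (1 - 1 / ((2 : ℕ) : ℝ)) = 1 / 2 := by norm_num
  rw [h2] at h1
  linarith

theorem vD_pos (D : ℤ) (hD : Squarefree D) (hD1 : D % 4 = 1) (hD2 : D ≠ 1) : 0 < vD D := by
  classical
  -- an odd prime l with |D| not dividing l
  obtain ⟨l, hl, hl2, hlD⟩ : ∃ l : ℕ, l.Prime ∧ l ≠ 2 ∧ ¬ D.natAbs ∣ l := by
    have hD1' : D.natAbs ≠ 1 := by
      intro h
      rcases Int.natAbs_eq D with h1 | h1 <;> rw [h] at h1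
      · exact hD2 (by simpa using h1)
      · rw [h1] at hD1
        norm_num at hD1
    by_cases h3 : D.natAbs = 3
    · refine ⟨5, by norm_num, by norm_num, ?_⟩
      rw [h3]
      norm_num
    · refine ⟨3, by norm_num, by norm_num, ?_⟩
      intro h
      rcases (Nat.dvd_prime Nat.prime_three).1 h with h4 | h4
      · exact hD1' h4
      · exact h3 h4
  have hlodd : ¬ 2 ∣ l := fun h => hl2 ((Nat.prime_dvd_prime_iff_eq Nat.prime_two hl).1 h).symm
  have hl3 : 3 ≤ l := by have := hl.two_le; omega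
  have hl3' : (3 : ℝ) ≤ l := by exact_mod_cast hl3
  -- density of the progression
  have hA : Tendsto (fun x : ℕ => (∑ p ∈ (PR D x).filter (fun p => p % l = 1 % l),
      (1 - (jacobiSym D p : ℝ))) / (Nat.primeCounting x : ℝ)) atTop (𝓝 (1 / ((l : ℝ) - 1))) := by
    have h := ((Wd_lim D hD hD1 hD2 l hl.one_le).const_mul 2).sub
      (Wd_lim D hD hD1 hD2 (2 * l) (by omega))
    have e : 2 * om D l - om D (2 * l) = 1 / ((l : ℝ) - 1) := by
      unfold om
      have hc : Nat.Coprime 2 l := (Nat.Prime.coprime_iff_not_dvd Nat.prime_two).2 hlodd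
      rw [if_neg (fun h => hlodd ((Dvd.intro _ rfl).trans h)),
        if_neg (fun h => hlD ((Nat.mul_dvd_mul_iff_left (by norm_num)).1 h)),
        Nat.totient_mul hc, Nat.totient_two, one_mul, Nat.totient_prime hl, Nat.cast_sub hl.one_le]
      push_cast
      ring
    rw [e] at h
    refine h.congr fun x => ?_
    rw [← W_odd D hlodd x]
    ring
  obtain ⟨C, hC, hH⟩ := sumH
  obtain ⟨L, hLl⟩ : ∃ L : ℕ, 8 * C * ((l : ℝ) - 1) < L := exists_nat_gt _
  have hL0 : (0 : ℝ) < L := lt_trans (by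
    have : (0 : ℝ) < (l : ℝ) - 1 := by linarith
    positivity) hLl
  have hL1 : 1 ≤ L := by exact_mod_cast hL0
  obtain ⟨x₁, hx₁⟩ := hH L hL1
  set c : ℝ := ∏ q ∈ PP L, (1 - 1 / (q : ℝ)) with hc
  have hc0 : 0 < c := Finset.prod_pos fun q hq =>
    (fac_nn (by unfold PP at hq; exact (mem_filter.1 hq).2)).1
  have hlow : ∀ᶠ x : ℕ in atTop, c / (8 * l * ((l : ℝ) - 1)) ≤
      mainV D x / (Nat.primeCounting x : ℝ) := by
    have hA2 := hA.eventually (lt_mem_nhds (show 3 / 4 * (1 / ((l : ℝ) - 1)) < 1 / ((l : ℝ) - 1) by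
      have : 0 < 1 / ((l : ℝ) - 1) := by
        have : (0 : ℝ) < (l : ℝ) - 1 := by linarith
        positivity
      linarith))
    filter_upwards [hA2, eventually_ge_atTop x₁, eventually_ge_atTop 2] with x g1 g2 g3
    have hπ : (0 : ℝ) < (Nat.primeCounting x : ℝ) := by
      exact_mod_cast Pool.Agent.H730R2.AA.pc_pos x g3
    rw [lt_div_iff₀ hπ] at g1
    rw [le_div_iff₀ hπ]
    set A := (PR D x).filter (fun p => p % l = 1 % l) with hAd
    set B := (PP x).filter (fun p => 1 / 2 < hL L (p - 1)) with hB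
    have hBc : (#B : ℝ) ≤ 2 * (C / L * (Nat.primeCounting x : ℝ)) := by
      have h1 : (#B : ℝ) * (1 / 2) ≤ ∑ p ∈ B, hL L (p - 1) := by
        rw [← nsmul_eq_mul, ← Finset.sum_const]
        exact Finset.sum_le_sum fun p hp => (mem_filter.1 hp).2.le
      have h2 : ∑ p ∈ B, hL L (p - 1) ≤ ∑ p ∈ PP x, hL L (p - 1) :=
        Finset.sum_le_sum_of_subset_of_nonneg (Finset.filter_subset _ _)
          fun p _ _ => Pool.Agent.H771R4.SE.hL_nn L p
      have h3 := hx₁ x g2
      linarith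
    have hBc2 : 2 * (#B : ℝ) ≤ 1 / 2 * (1 / ((l : ℝ) - 1)) * (Nat.primeCounting x : ℝ) := by
      have hl1 : (0 : ℝ) < (l : ℝ) - 1 := by linarith
      have h4 : C / L ≤ 1 / 8 * (1 / ((l : ℝ) - 1)) := by
        rw [div_le_iff₀ hL0]
        have h5 : C = 1 / 8 * (1 / ((l : ℝ) - 1)) * (8 * C * ((l : ℝ) - 1)) := by
          field_simp
        calc C = 1 / 8 * (1 / ((l : ℝ) - 1)) * (8 * C * ((l : ℝ) - 1)) := h5
          _ ≤ _ := by gcongr
      calc 2 * (#B : ℝ) ≤ 2 * (2 * (C / L * (Nat.primeCounting x : ℝ))) := by gcongr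
        _ ≤ 2 * (2 * (1 / 8 * (1 / ((l : ℝ) - 1)) * (Nat.primeCounting x : ℝ))) := by gcongr
        _ = _ := by ring
    -- the sum over A without B
    have hAB : ∑ p ∈ A, (1 - (jacobiSym D p : ℝ)) - 2 * #B ≤
        ∑ p ∈ A \ B, (1 - (jacobiSym D p : ℝ)) := by
      have h6 : ∑ p ∈ A, (1 - (jacobiSym D p : ℝ)) =
          ∑ p ∈ A \ B, (1 - (jacobiSym D p : ℝ)) + ∑ p ∈ A ∩ B, (1 - (jacobiSym D p : ℝ)) := by
        rw [add_comm]
        exact (Finset.sum_inter_add_sum_sdiff A B _).symm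
      have h7 : ∑ p ∈ A ∩ B, (1 - (jacobiSym D p : ℝ)) ≤ 2 * #B := by
        calc ∑ p ∈ A ∩ B, (1 - (jacobiSym D p : ℝ)) ≤ ∑ _p ∈ A ∩ B, (2 : ℝ) :=
              Finset.sum_le_sum fun p _ => (jac_range D p).2
          _ = #(A ∩ B) * 2 := by rw [Finset.sum_const, nsmul_eq_mul]
          _ ≤ _ := by
            have : (#(A ∩ B) : ℝ) ≤ #B := by
              exact_mod_cast Finset.card_le_card Finset.inter_subset_right
            linarith
      linarith
    have hterm : ∀ p ∈ A \ B, (c / 2) * (1 / l) * (1 - (jacobiSym D p : ℝ)) ≤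
        (1 - (jacobiSym D p : ℝ)) * (rho p * (1 - 2 * rho p)) := by
      intro p hp
      rw [Finset.mem_sdiff, hAd, mem_filter] at hp
      obtain ⟨⟨hpR, hpl⟩, hpB⟩ := hp
      have hpR' := hpR
      unfold PR at hpR'
      rw [mem_filter, mem_range] at hpR'
      obtain ⟨hpx, hpp, hp2, -⟩ := hpR'
      rw [mod_iff hpp.one_le] at hpl
      have hhL : hL L (p - 1) ≤ 1 / 2 := by
        by_contra hcon
        push Not at hcon
        apply hpB
        rw [hB, mem_filter]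
        refine ⟨?_, hcon⟩
        unfold PP
        rw [mem_filter, mem_range]
        exact ⟨hpx, hpp⟩
      have h8 := rho_lower hpp L
      rw [← hc] at h8
      have h9 : c / 2 ≤ rho p := by nlinarith
      have h10 := rho_half hpp hp2 hl hl2 hpl
      have h11 : 1 / (l : ℝ) ≤ 1 - 2 * rho p := by linarith
      have h12 : (c / 2) * (1 / l) ≤ rho p * (1 - 2 * rho p) :=
        mul_le_mul h9 h11 (by positivity) ((by positivity : (0 : ℝ) ≤ c / 2).trans h9)
      have h13 := mul_le_mul_of_nonneg_left h12 (jac_range D p).1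
      linarith
    have hsum : ∑ p ∈ A \ B, (1 - (jacobiSym D p : ℝ)) * (rho p * (1 - 2 * rho p)) ≤ mainV D x := by
      unfold mainV
      apply Finset.sum_le_sum_of_subset_of_nonneg
      · exact (Finset.sdiff_subset).trans (Finset.filter_subset _ _)
      · intro p hp _
        unfold PR at hp
        rw [mem_filter] at hp
        have h14 := two_rho_le hp.2.1 hp.2.2.1
        exact mul_nonneg (jac_range D p).1 (mul_nonneg (Pool.Agent.H771R4.SE.rho_nn p) (by linarith))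
    have h15 := (Finset.sum_le_sum hterm).trans hsum
    rw [← Finset.mul_sum] at h15
    refine le_trans ?_ h15
    have h16 : 1 / 4 * (1 / ((l : ℝ) - 1)) * (Nat.primeCounting x : ℝ) ≤
        ∑ p ∈ A \ B, (1 - (jacobiSym D p : ℝ)) := by linarith
    have hl0 : (0 : ℝ) < l := by linarith
    have hl1 : (0 : ℝ) < (l : ℝ) - 1 := by linarith
    calc c / (8 * l * ((l : ℝ) - 1)) * (Nat.primeCounting x : ℝ)
        = (c / 2) * (1 / l) * (1 / 4 * (1 / ((l : ℝ) - 1)) * (Nat.primeCounting x : ℝ)) := by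
          field_simp
          ring
      _ ≤ _ := by gcongr
  have h := ge_of_tendsto (mainV_lim D hD hD1 hD2) hlow
  have hl0 : (0 : ℝ) < l := by linarith
  have hl1 : (0 : ℝ) < (l : ℝ) - 1 := by linarith
  exact lt_of_lt_of_le (by positivity) h

end Pool.Agent.N430.AD
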